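import Pool.Agent.SGL.M34

/-!
# Soluble graphs of the almost simple groups with socle `PSL(2, q)`

No almost simple group `G` with socle `G₀ = PSL(2, q)` satisfies `δ(G) > δ(G₀)`.
-/

set_option autoImplicit false

namespace Pool.Agent.Results.MP_2ef0b8_al.LinearSocle

open scoped MatrixGroups

/-- The automorphism group `G` contains every automorphism of `PSL(2, F)` induced by conjugation with
an element of `GL(2, F)`, that is `G` contains `PGL(2, F)`. -/
def ContainsPGL (F : Type) [Field F] (G : Subgroup (MulAut PSL(2, F))) : Prop :=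
  ∀ g : GL (Fin 2) F, ∃ α ∈ G, ∀ a b : SL(2, F),
    (b : Matrix (Fin 2) (Fin 2) F) * (g : Matrix (Fin 2) (Fin 2) F)
      = (g : Matrix (Fin 2) (Fin 2) F) * (a : Matrix (Fin 2) (Fin 2) F) →
    α (a : PSL(2, F)) = (b : PSL(2, F))

theorem result (F : Type) [Field F] [Finite F] (hF : 4 ≤ Nat.card F)
    (G : Subgroup (MulAut PSL(2, F))) (hG : (MulAut.conj (G := PSL(2, F))).range ≤ G) :
    (SGL.solGraph G).ediam ≤ (SGL.solGraph PSL(2, F)).ediam ∧
    2 ≤ (SGL.solGraph G).ediam ∧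
    (SGL.solGraph PSL(2, F)).ediam ≤ 3 ∧
    ((2 : F) ≠ 0 → 9 ≤ Nat.card F → (SGL.solGraph PSL(2, F)).ediam = 3) ∧
    (ContainsPGL F G → (SGL.solGraph G).ediam = 2) := by
  obtain ⟨h1, h2, h3, h4, h5⟩ := SGL.main hF G hG
  exact ⟨h2, h1, h3, h4, h5⟩

end Pool.Agent.Results.MP_2ef0b8_al.LinearSocle
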